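import Pool.Agent.TH838.PT.Main

/-!
# Zero sets of P-recursive sequences: conditions on the zeros of the extreme coefficients
-/

set_option autoImplicit false

namespace Pool.Agent.Results.MP_1eeaa7_nt.ExtremeZerosTranscendental

open Polynomial

/-- Zero sets of the polynomial expressions in the solutions of the linear system
`Q(n) x(n + 1) = N(n) x(n)`: for all complex sequences `x_1, ..., x_r` which satisfy the system for
`n ≥ n₀` and every complex polynomial `G`, the set of the `n` with `G(n, x_1(n), ..., x_r(n)) = 0` is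
a finite union of arithmetic progressions (the common difference may be `0`). -/
def ZeroSys {r : ℕ} (N : Matrix (Fin r) (Fin r) ℂ[X]) (Q : ℂ[X]) : Prop :=
  ∀ (x : Fin r → ℕ → ℂ) (n₀ : ℕ),
    (∀ i n, n₀ ≤ n → Q.eval (n : ℂ) * x i (n + 1) = ∑ j, (N i j).eval (n : ℂ) * x j n) →
    ∀ G : MvPolynomial (Option (Fin r)) ℂ, ∃ T : Finset (ℕ × ℕ),
      {n : ℕ | MvPolynomial.eval (fun o => o.elim (n : ℂ) fun i => x i n) G = 0} =
        {k : ℕ | ∃ q ∈ T, ∃ t : ℕ, k = q.1 * t + q.2}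

/-- Zero sets of the solutions of all the linear recurrences with polynomial coefficients whose
first coefficient is `P` and whose last coefficient is `Q`: for every order `d + 1`, all complex
polynomials `c_1, ..., c_d`, all complex sequences `a_1, ..., a_r` with
`P(n) a_j(n) + ∑_i c_i(n) a_j(n + i) + Q(n) a_j(n + d + 1) = 0` for all `n ≥ n₀`, and every complex
polynomial `G` in `n` and the `a_j(n + i)`, `i ≤ d`, the set of the `n` at which `G` vanishes is a
finite union of arithmetic progressions (the common difference may be `0`). -/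
def ZeroSets (P Q : ℂ[X]) : Prop :=
  ∀ (d r n₀ : ℕ) (c : Fin d → ℂ[X]) (a : Fin r → ℕ → ℂ),
    (∀ j n, n₀ ≤ n → P.eval (n : ℂ) * a j n +
      ∑ i : Fin d, (c i).eval (n : ℂ) * a j (n + i + 1) + Q.eval (n : ℂ) * a j (n + d + 1) = 0) →
    ∀ G : MvPolynomial (Option (Fin r × Fin (d + 1))) ℂ,
      ∃ T : Finset (ℕ × ℕ),
        {n : ℕ | MvPolynomial.eval (fun o => o.elim (n : ℂ) fun e => a e.1 (n + e.2)) G = 0} =
          {k : ℕ | ∃ q ∈ T, ∃ t : ℕ, k = q.1 * t + q.2}

/-- Every algebraic zero of `W` generates a field which contains one of two given quadratic fields;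
for instance `W` has only transcendental zeros. -/
def QuadraticZeros (W : ℂ[X]) : Prop :=
  ∃ D₁ D₂ : ℤ, ¬ IsSquare D₁ ∧ ¬ IsSquare D₂ ∧ ∀ θ : ℂ, IsAlgebraic ℚ θ → W.eval θ = 0 →
    ∃ B : ℚ[X], (aeval θ B) ^ 2 = (D₁ : ℂ) ∨ (aeval θ B) ^ 2 = (D₂ : ℂ)

/-- There is an integral polynomial which vanishes at all the algebraic zeros of `W` and which for
infinitely many primes `p` has no zero modulo `p`. -/
def ZeroFree (W : ℂ[X]) : Prop :=
  ∃ A : ℤ[X], (∀ θ : ℂ, IsAlgebraic ℚ θ → W.eval θ = 0 → aeval θ A = 0) ∧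
    ∀ M : ℕ, ∃ p : ℕ, M < p ∧ p.Prime ∧
      ∀ x : ZMod p, (A.map (Int.castRingHom (ZMod p))).eval x ≠ 0

/-- **Zero sets of P-recursive sequences: conditions on the zeros of the extreme coefficients.** -/
theorem result :
    (∀ (r : ℕ) (N : Matrix (Fin r) (Fin r) ℂ[X]) (Q : ℂ[X]), N.det ≠ 0 → Q ≠ 0 →
      QuadraticZeros (N.det * Q) ∨ ZeroFree (N.det * Q) → ZeroSys N Q) ∧
    (∀ P Q : ℂ[X], P ≠ 0 → Q ≠ 0 → QuadraticZeros (P * Q) ∨ ZeroFree (P * Q) → ZeroSets P Q) ∧
    -- integral coefficients: no zeros modulo one prime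
    (∀ p : ℕ, p.Prime → ∀ (r : ℕ) (N : Matrix (Fin r) (Fin r) ℂ[X]) (P Q : ℤ[X]),
      (∀ i j k, IsIntegral ℤ ((N i j).coeff k)) → N.det = P.map (Int.castRingHom ℂ) →
      (∀ x : ZMod p, (P.map (Int.castRingHom (ZMod p))).eval x ≠ 0) →
      (∀ x : ZMod p, (Q.map (Int.castRingHom (ZMod p))).eval x ≠ 0) →
      ZeroSys N (Q.map (Int.castRingHom ℂ))) := by
  refine ⟨fun r N Q hN hQ h => ?_, fun P Q hP hQ h => ?_, fun p hp r N P Q hN hdet hP hQ => ?_⟩
  · rcases h with ⟨D₁, D₂, h1, h2, h⟩ | ⟨A, hA, hinf⟩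
    · exact Pool.Agent.TH838.PT.sys_B N Q hN hQ D₁ D₂ h1 h2 h
    · exact Pool.Agent.TH838.PT.sys_A N Q hN hQ A hA hinf
  · have key : Pool.Agent.TH838.PS.ZeroSets Set.univ P Q := by
      rcases h with ⟨D₁, D₂, h1, h2, h⟩ | ⟨A, hA, hinf⟩
      · exact Pool.Agent.TH838.PS.main_B P Q hP hQ D₁ D₂ h1 h2 h
      · exact Pool.Agent.TH838.PS.main_A P Q hP hQ A hA hinf
    exact fun d r n₀ c a hrec G => key d r n₀ c a (fun _ => Set.mem_univ _) hrec G
  · exact @Pool.Agent.TH838.PT.sys_int p ⟨hp⟩ r N P Q hN hdet hP hQ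

end Pool.Agent.Results.MP_1eeaa7_nt.ExtremeZerosTranscendental
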