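import Pool.Agent.TH838.PR.Sieve

/-!
# Zero sets of P-recursive sequences with generic first and last coefficient
-/

set_option autoImplicit false

namespace Pool.Agent.Results.MP_1eeaa7_nt.GenericExtremeCoefficients

open Pool.Agent.TH838.PR

/-- Zero sets of the solutions of all the linear recurrences with polynomial coefficients whose
first coefficient is `P` and whose last coefficient is `Q`: for every order `d + 1`, all middle
coefficients `c_1, ..., c_d` (polynomials whose coefficients are algebraic integers), all complex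
sequences `a_1, ..., a_r` with
`P(n) a_j(n) + ∑_i c_i(n) a_j(n + i) + Q(n) a_j(n + d + 1) = 0` for all large `n`, and every complex
polynomial `G` in `n` and the `a_j(n + i)`, `i ≤ d`, the set of the `n` at which `G` vanishes is a
finite union of arithmetic progressions (the common difference may be `0`). -/
def ZeroSets (P Q : ℂ → ℂ) : Prop :=
  ∀ (d r n₀ : ℕ) (c : Fin d → Polynomial ℂ) (a : Fin r → ℕ → ℂ),
    (∀ i k, IsIntegral ℤ ((c i).coeff k)) →
    (∀ j n, n₀ ≤ n → P (n : ℂ) * a j n +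
      ∑ i : Fin d, (c i).eval (n : ℂ) * a j (n + i + 1) + Q (n : ℂ) * a j (n + d + 1) = 0) →
    ∀ G : MvPolynomial (Option (Fin r × Fin (d + 1))) ℂ,
      ∃ T : Finset (ℕ × ℕ),
        {n : ℕ | MvPolynomial.eval (fun o => o.elim (n : ℂ) fun e => a e.1 (n + e.2)) G = 0} =
          {k : ℕ | ∃ q ∈ T, ∃ t : ℕ, k = q.1 * t + q.2}

theorem main {m m' : ℕ} (v : Fin (m + 1) ⊕ Fin (m' + 1) → ℤ) (hv : GoodPair v) :
    ZeroSets (fun t => ∑ i : Fin (m + 1), (v (Sum.inl i) : ℂ) * t ^ (i : ℕ))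
      (fun t => ∑ i : Fin (m' + 1), (v (Sum.inr i) : ℂ) * t ^ (i : ℕ)) := by
  intro d r n₀ c a hc hrec G
  obtain ⟨p, hp, h1, h2⟩ := hv
  set K : ℕ := (Finset.univ.sup fun i => (c i).natDegree) + 1 with hK
  have hlt : ∀ i, (c i).natDegree < K := fun i =>
    Nat.lt_succ_of_le (Finset.le_sup (f := fun i => (c i).natDegree) (Finset.mem_univ i))
  have hev : ∀ i (t : ℂ), (c i).eval t = ∑ k : Fin K, (c i).coeff k * t ^ (k : ℕ) := by
    intro i t
    rw [Polynomial.eval_eq_sum_range' (hlt i), Finset.sum_range]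
  exact criterion (p := p) (K := K) (fun i => v (Sum.inl i)) (fun i => v (Sum.inr i)) h1 h2
    (fun i k => (c i).coeff k) (fun i k => hc i k) a n₀ (fun j n hn => by
      have h := hrec j n hn
      simp only [hev] at h
      exact h) G

/-- **Zero sets of P-recursive sequences with generic first and last coefficient.** Let `m, m' ≠ 1`.
There is `δ > 0` such that for all large `H` and every cube `|v_i - b_i| ≤ H`, for all but a
proportion `H ^ (-δ)` of the integral vectors `v` in the cube the polynomials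
`P = ∑_{i ≤ m} v_i t^i` and `Q = ∑_{i ≤ m'} v'_i t^i` have the property `ZeroSets`. -/
theorem result (m m' : ℕ) (hm : m ≠ 1) (hm' : m' ≠ 1) :
    ∃ δ : ℝ, 0 < δ ∧ ∃ H₀ : ℕ, ∀ H : ℕ, H₀ ≤ H → ∀ b : Fin (m + 1) ⊕ Fin (m' + 1) → ℤ,
      (Nat.card {v : Fin (m + 1) ⊕ Fin (m' + 1) → ℤ // (∀ i, |v i - b i| ≤ (H : ℤ)) ∧
        ¬ ZeroSets (fun t => ∑ i : Fin (m + 1), (v (Sum.inl i) : ℂ) * t ^ (i : ℕ))
          (fun t => ∑ i : Fin (m' + 1), (v (Sum.inr i) : ℂ) * t ^ (i : ℕ))} : ℝ) ≤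
        (H : ℝ) ^ (-δ) * (2 * H + 1 : ℝ) ^ (m + m' + 2) := by
  obtain ⟨δ, hδ, H₀, hH⟩ := sieve hm hm'
  refine ⟨δ, hδ, H₀, fun H hH₀ b => le_trans ?_ (hH H hH₀ b)⟩
  have hfin : Finite {v : Fin (m + 1) ⊕ Fin (m' + 1) → ℤ // (∀ i, |v i - b i| ≤ (H : ℤ)) ∧
      ¬ GoodPair v} := by
    apply Set.Finite.subset (Set.Finite.pi' fun i => Set.finite_Icc (b i - (H : ℤ)) (b i + H))
    rintro v ⟨hv, -⟩ i
    have := abs_le.1 (hv i)
    exact ⟨by linarith [this.1], by linarith [this.2]⟩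
  have hle := Nat.card_le_card_of_injective
    (fun v : {v : Fin (m + 1) ⊕ Fin (m' + 1) → ℤ // (∀ i, |v i - b i| ≤ (H : ℤ)) ∧
        ¬ ZeroSets (fun t => ∑ i : Fin (m + 1), (v (Sum.inl i) : ℂ) * t ^ (i : ℕ))
          (fun t => ∑ i : Fin (m' + 1), (v (Sum.inr i) : ℂ) * t ^ (i : ℕ))} =>
      (⟨v.1, v.2.1, fun h => v.2.2 (main v.1 h)⟩ :
        {v : Fin (m + 1) ⊕ Fin (m' + 1) → ℤ // (∀ i, |v i - b i| ≤ (H : ℤ)) ∧ ¬ GoodPair v}))
    (fun v w hvw => Subtype.ext (congrArg (fun z => z.1) hvw))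
  exact_mod_cast hle

end Pool.Agent.Results.MP_1eeaa7_nt.GenericExtremeCoefficients
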