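import Pool.Agent.TH838.PS.Gen

/-!
# Zero sets of P-recursive sequences with generic extreme coefficients over finitely generated rings
-/

set_option autoImplicit false

namespace Pool.Agent.Results.MP_1eeaa7_nt.GenericFinitelyGenerated

open Polynomial

/-- Zero sets of the solutions of all the linear recurrences with polynomial coefficients whose
first coefficient is `P`, whose last coefficient is `Q` and whose middle coefficients have their
coefficients in `R`: for every order `d + 1`, all `c_1, ..., c_d` over `R`, all complex sequences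
`a_1, ..., a_r` with `P(n) a_j(n) + ∑_i c_i(n) a_j(n + i) + Q(n) a_j(n + d + 1) = 0` for all
`n ≥ n₀`, and every complex polynomial `G` in `n` and the `a_j(n + i)`, `i ≤ d`, the set of the `n` at
which `G` vanishes is a finite union of arithmetic progressions (the common difference may be
`0`). -/
def ZeroSets (R : Set ℂ) (P Q : ℂ → ℂ) : Prop :=
  ∀ (d r n₀ : ℕ) (c : Fin d → ℂ[X]) (a : Fin r → ℕ → ℂ), (∀ i k, (c i).coeff k ∈ R) →
    (∀ j n, n₀ ≤ n → P (n : ℂ) * a j n +
      ∑ i : Fin d, (c i).eval (n : ℂ) * a j (n + i + 1) + Q (n : ℂ) * a j (n + d + 1) = 0) →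
    ∀ G : MvPolynomial (Option (Fin r × Fin (d + 1))) ℂ,
      ∃ T : Finset (ℕ × ℕ),
        {n : ℕ | MvPolynomial.eval (fun o => o.elim (n : ℂ) fun e => a e.1 (n + e.2)) G = 0} =
          {k : ℕ | ∃ q ∈ T, ∃ t : ℕ, k = q.1 * t + q.2}

/-- **Zero sets of P-recursive sequences with generic extreme coefficients.** Let `m, m' ≠ 1` and let
`s` be a finite set of complex numbers. There is `δ > 0` such that for all large `H` and every cube
`|v_i - b_i| ≤ H`, for all but a proportion `H ^ (-δ)` of the integral vectors `v` in the cube the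
polynomials `P = ∑_{i ≤ m} v_i t^i` and `Q = ∑_{i ≤ m'} v'_i t^i` have the property `ZeroSets` for
the middle coefficients over the ring generated by `s`. -/
theorem result (m m' : ℕ) (hm : m ≠ 1) (hm' : m' ≠ 1) (s : Finset ℂ) :
    ∃ δ : ℝ, 0 < δ ∧ ∃ H₀ : ℕ, ∀ H : ℕ, H₀ ≤ H → ∀ b : Fin (m + 1) ⊕ Fin (m' + 1) → ℤ,
      (Nat.card {v : Fin (m + 1) ⊕ Fin (m' + 1) → ℤ // (∀ i, |v i - b i| ≤ (H : ℤ)) ∧
        ¬ ZeroSets (Algebra.adjoin ℤ (s : Set ℂ))
          (fun t => ∑ i : Fin (m + 1), (v (Sum.inl i) : ℂ) * t ^ (i : ℕ))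
          (fun t => ∑ i : Fin (m' + 1), (v (Sum.inr i) : ℂ) * t ^ (i : ℕ))} : ℝ) ≤
        (H : ℝ) ^ (-δ) * (2 * H + 1 : ℝ) ^ (m + m' + 2) := by
  obtain ⟨δ, hδ, H₀, h⟩ := Pool.Agent.TH838.PS.main_gen hm hm' s
  refine ⟨δ, hδ, H₀, fun H hH b => ?_⟩
  refine le_trans (le_of_eq ?_) (h H hH b)
  congr 1
  apply Nat.card_congr
  apply Equiv.subtypeEquivRight
  intro v
  refine and_congr_right fun _ => not_congr ?_
  have e : ∀ (k : ℕ) (c : Fin (k + 1) → ℤ) (t : ℂ),
      ((∑ i : Fin (k + 1), C (c i) * X ^ (i : ℕ) : ℤ[X]).map (Int.castRingHom ℂ)).eval t =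
        ∑ i : Fin (k + 1), (c i : ℂ) * t ^ (i : ℕ) := fun k c t =>
    Pool.Agent.TH838.PS.ipol_eval c t
  constructor
  · intro h d r n₀ c a hc hrec G
    refine h d r n₀ c a (fun i k => hc i k) (fun j n hn => ?_) G
    have h1 := hrec j n hn
    rw [e, e] at h1
    exact h1
  · intro h d r n₀ c a hc hrec G
    refine h d r n₀ c a (fun i k => hc i k) (fun j n hn => ?_) G
    rw [e, e]
    exact hrec j n hn

end Pool.Agent.Results.MP_1eeaa7_nt.GenericFinitelyGenerated
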